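import Mathlib

set_option autoImplicit false

/-!
# The chromatic distance between any two finite graphs is at most two

For graphs `F`, `X` the `F`-free chromatic number `χ(X : -F)` is the least number of classes in a
partition of the vertices of `X` in which no class contains an induced copy of `F`.
`F ≍_n G` means that some finite graph `X` has `χ(X : -F) = χ(X : -G) = n`, and `F ≍ G` means
`F ≍_n G` for all `n ≥ 1`.  The chromatic distance is the graph distance of this relation.

We prove that any two finite graphs with at least two vertices are at chromatic distance at most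
two.

Idea: let `H` be a large half graph (which is connected, co-connected, bipartite, and has no
nontrivial module).  If `F` has an edge and fewer vertices than `H`, then `F ≍ H`:
* iterated lexicographic powers of `F` contain no induced copy of `H` and have arbitrarily large
  `F`-free chromatic number;
* the graph on `Fin k × Fin N` with `(i, u) ~ (j, v)` for `i < j` and `u ≤ v` is a union of `k`
  independent sets, while each colouring by fewer than `k` colours has a monochromatic induced
  copy of `H` (pigeonhole on colour vectors).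
These are put together by a disjoint union if `F` is connected and by a join if `F` is
co-connected.
-/

namespace Pool.Agent.Results.MP_37c966_co.DistanceAtMostTwo

open SimpleGraph

universe u v w

/-- `FreeColorable X F k`: the vertex set of `X` can be split into `k` (possibly empty) classes
such that no class induces a subgraph of `X` that contains `F` as an induced subgraph. -/
def FreeColorable {V : Type u} {W : Type v} (X : SimpleGraph V) (F : SimpleGraph W) (k : ℕ) :
    Prop :=
  ∃ c : V → Fin k, ∀ i : Fin k, ¬ F.IsIndContained (X.induce {x | c x = i})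

/-- The `F`-free chromatic number `χ(X : -F)` of `X`: the least `k` such that the vertex set of `X`
can be split into `k` classes, none of which induces a subgraph containing `F` as an induced
subgraph. -/
noncomputable def freeChromaticNumber {V : Type u} {W : Type v} (X : SimpleGraph V)
    (F : SimpleGraph W) : ℕ :=
  sInf {k | FreeColorable X F k}

/-- `RelatedAt n F G` is `F ≍_n G`: there is a finite graph `X` (on the vertex set `Fin m` for some
`m`) with `χ(X : -F) = χ(X : -G) = n`. -/
def RelatedAt {V : Type u} {W : Type v} (n : ℕ) (F : SimpleGraph V) (G : SimpleGraph W) : Prop :=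
  ∃ (m : ℕ) (X : SimpleGraph (Fin m)), freeChromaticNumber X F = n ∧ freeChromaticNumber X G = n

/-- `Related F G` is `F ≍ G`: `F ≍_n G` for every `n ≥ 1`. -/
def Related {V : Type u} {W : Type v} (F : SimpleGraph V) (G : SimpleGraph W) : Prop :=
  ∀ n : ℕ, 1 ≤ n → RelatedAt n F G

/-- `HasChain F G k`: there are finite graphs `R 0, ..., R k`, each with at least two vertices, with
`F ≅ R 0 ≍ R 1 ≍ ... ≍ R k ≅ G`. -/
def HasChain {V : Type u} {W : Type v} (F : SimpleGraph V) (G : SimpleGraph W) (k : ℕ) : Prop :=
  ∃ (m : Fin (k + 1) → ℕ) (R : (i : Fin (k + 1)) → SimpleGraph (Fin (m i))),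
    (∀ i, 2 ≤ m i) ∧ Nonempty (F ≃g R 0) ∧ Nonempty (R (Fin.last k) ≃g G) ∧
      ∀ i : Fin k, Related (R i.castSucc) (R i.succ)

/-- The chromatic distance `d_c(F, G)`: the least `k` for which there are graphs `R 0, ..., R k`,
each with at least two vertices, with `F ≅ R 0 ≍ R 1 ≍ ... ≍ R k ≅ G` (and `⊤` if there is no such
`k`). -/
noncomputable def chromaticDistance {V : Type u} {W : Type v} (F : SimpleGraph V)
    (G : SimpleGraph W) : ℕ∞ :=
  ⨅ (k : ℕ) (_ : HasChain F G k), (k : ℕ∞)

/-! ### A convenient reformulation -/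

/-- Build an embedding of graphs from an injective function that preserves and reflects
adjacency. -/
def mkEmb {V : Type u} {W : Type v} {X : SimpleGraph V} {F : SimpleGraph W} (g : W → V)
    (hinj : Function.Injective g) (h : ∀ a b, X.Adj (g a) (g b) ↔ F.Adj a b) : F ↪g X :=
  ⟨⟨g, hinj⟩, fun {a b} => h a b⟩

@[simp] theorem mkEmb_apply {V : Type u} {W : Type v} {X : SimpleGraph V} {F : SimpleGraph W}
    (g : W → V) (hinj : Function.Injective g) (h : ∀ a b, X.Adj (g a) (g b) ↔ F.Adj a b)
    (a : W) : mkEmb g hinj h a = g a := rfl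

/-- `Col X F k`: a colouring with `k` colours without monochromatic induced copy of `F`. -/
def Col {V : Type u} {W : Type v} (X : SimpleGraph V) (F : SimpleGraph W) (k : ℕ) : Prop :=
  ∃ c : V → Fin k, ∀ f : F ↪g X, ∃ a b, c (f a) ≠ c (f b)

theorem freeColorable_iff {V : Type u} {W : Type v} [Nonempty W] (X : SimpleGraph V)
    (F : SimpleGraph W) (k : ℕ) : FreeColorable X F k ↔ Col X F k := by
  constructor
  · rintro ⟨c, hc⟩
    refine ⟨c, fun f => ?_⟩
    by_contra hcon
    push Not at hcon
    obtain ⟨w0⟩ := ‹Nonempty W›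
    apply hc (c (f w0))
    refine ⟨mkEmb (fun a => ⟨f a, hcon a w0⟩) ?_ ?_⟩
    · intro a b hab
      simpa using hab
    · intro a b
      exact f.map_rel_iff
  · rintro ⟨c, hc⟩
    refine ⟨c, fun i => ?_⟩
    rintro ⟨f⟩
    obtain ⟨a, b, hab⟩ := hc ((Embedding.induce _).comp f)
    apply hab
    have h1 : c (f a).1 = i := (f a).2
    have h2 : c (f b).1 = i := (f b).2
    simp [h1, h2]

theorem Col.mono {V : Type u} {W : Type v} {X : SimpleGraph V} {F : SimpleGraph W} {k l : ℕ}
    (h : Col X F k) (hkl : k ≤ l) : Col X F l := by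
  obtain ⟨c, hc⟩ := h
  refine ⟨fun x => Fin.castLE hkl (c x), fun f => ?_⟩
  obtain ⟨a, b, hab⟩ := hc f
  refine ⟨a, b, fun h => hab ?_⟩
  exact Fin.castLE_injective hkl h

theorem freeChromaticNumber_eq {V : Type u} {W : Type v} [Nonempty W] {X : SimpleGraph V}
    {F : SimpleGraph W} {k : ℕ} (h1 : Col X F (k + 1)) (h2 : ¬ Col X F k) :
    freeChromaticNumber X F = k + 1 := by
  unfold freeChromaticNumber
  simp only [freeColorable_iff]
  apply le_antisymm
  · exact Nat.sInf_le h1
  · refine le_csInf ⟨_, h1⟩ ?_
    intro l hl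
    by_contra hcon
    push Not at hcon
    exact h2 (hl.mono (by omega))

/-- Transport of colourings along embeddings of the host graph. -/
theorem Col.of_embedding {V : Type u} {V' : Type w} {W : Type v} {X : SimpleGraph V}
    {X' : SimpleGraph V'} {F : SimpleGraph W} {k : ℕ} (h : Col X F k) (e : X' ↪g X) :
    Col X' F k := by
  obtain ⟨c, hc⟩ := h
  refine ⟨fun x => c (e x), fun f => ?_⟩
  obtain ⟨a, b, hab⟩ := hc (e.comp f)
  exact ⟨a, b, hab⟩

theorem col_compl {V : Type u} {W : Type v} {X : SimpleGraph V} {F : SimpleGraph W} {k : ℕ} :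
    Col Xᶜ Fᶜ k ↔ Col X F k := by
  constructor
  · rintro ⟨c, hc⟩
    refine ⟨c, fun f => ?_⟩
    obtain ⟨a, b, hab⟩ := hc (Embedding.complEquiv f)
    exact ⟨a, b, hab⟩
  · rintro ⟨c, hc⟩
    refine ⟨c, fun f => ?_⟩
    obtain ⟨a, b, hab⟩ := hc (Embedding.complEquiv.symm f)
    exact ⟨a, b, hab⟩

/-! ### Disjoint unions -/

theorem walk_induct {W : Type v} {F : SimpleGraph W} {P : W → Prop}
    (hP : ∀ a b, F.Adj a b → P a → P b) {a b : W} (p : F.Walk a b) : P a → P b := by
  induction p with
  | nil => exact id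
  | cons h _ ih => exact fun ha => ih (hP _ _ h ha)

theorem Col.sum {V : Type u} {V' : Type w} {W : Type v} {X : SimpleGraph V}
    {X' : SimpleGraph V'} {F : SimpleGraph W} {k : ℕ} (hF : F.Connected) (h : Col X F k)
    (h' : Col X' F k) : Col (X ⊕g X') F k := by
  obtain ⟨c, hc⟩ := h
  obtain ⟨c', hc'⟩ := h'
  refine ⟨Sum.elim c c', fun f => ?_⟩
  obtain ⟨w0⟩ := hF.nonempty
  rcases hw0 : f w0 with x0 | x0
  · -- everything lies in the left part
    have key : ∀ w, ∃ x, f w = Sum.inl x := by
      intro w
      obtain ⟨p⟩ := hF.preconnected w0 w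
      refine walk_induct (P := fun w => ∃ x, f w = Sum.inl x) ?_ p ⟨x0, hw0⟩
      rintro a b hab ⟨x, hx⟩
      have h1 : (X ⊕g X').Adj (f a) (f b) := f.map_rel_iff.2 hab
      rcases hv : f b with y | y
      · exact ⟨y, rfl⟩
      · rw [hx, hv] at h1
        simp at h1
    choose g hg using key
    have hinj : Function.Injective g := by
      intro a b hab
      apply f.injective
      rw [hg a, hg b, hab]
    obtain ⟨a, b, hab⟩ := hc (mkEmb g hinj (by
      intro a b
      have : (X ⊕g X').Adj (f a) (f b) ↔ F.Adj a b := f.map_rel_iff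
      rw [hg a, hg b] at this
      simpa using this))
    refine ⟨a, b, ?_⟩
    rw [hg a, hg b]
    exact hab
  · have key : ∀ w, ∃ x, f w = Sum.inr x := by
      intro w
      obtain ⟨p⟩ := hF.preconnected w0 w
      refine walk_induct (P := fun w => ∃ x, f w = Sum.inr x) ?_ p ⟨x0, hw0⟩
      rintro a b hab ⟨x, hx⟩
      have h1 : (X ⊕g X').Adj (f a) (f b) := f.map_rel_iff.2 hab
      rcases hv : f b with y | y
      · rw [hx, hv] at h1
        simp at h1
      · exact ⟨y, rfl⟩
    choose g hg using key
    have hinj : Function.Injective g := by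
      intro a b hab
      apply f.injective
      rw [hg a, hg b, hab]
    obtain ⟨a, b, hab⟩ := hc' (mkEmb g hinj (by
      intro a b
      have : (X ⊕g X').Adj (f a) (f b) ↔ F.Adj a b := f.map_rel_iff
      rw [hg a, hg b] at this
      simpa using this))
    refine ⟨a, b, ?_⟩
    rw [hg a, hg b]
    exact hab

/-! ### The half graph -/

/-- The half graph on `Fin n ⊕ Fin n`: `inl i` is adjacent to `inr j` iff `i ≤ j`. -/
def halfGraph (n : ℕ) : SimpleGraph (Fin n ⊕ Fin n) where
  Adj x y := (∃ i j, i ≤ j ∧ x = Sum.inl i ∧ y = Sum.inr j) ∨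
    (∃ i j, i ≤ j ∧ x = Sum.inr j ∧ y = Sum.inl i)
  symm := ⟨by
    rintro x y (⟨i, j, h, hx, hy⟩ | ⟨i, j, h, hx, hy⟩)
    · exact Or.inr ⟨i, j, h, hy, hx⟩
    · exact Or.inl ⟨i, j, h, hy, hx⟩⟩
  loopless := ⟨by
    rintro x (⟨i, j, _, hx, hy⟩ | ⟨i, j, _, hx, hy⟩)
    · rw [hx] at hy; simp at hy
    · rw [hx] at hy; simp at hy⟩

@[simp] theorem halfGraph_inl_inr {n : ℕ} (i j : Fin n) :
    (halfGraph n).Adj (Sum.inl i) (Sum.inr j) ↔ i ≤ j := by
  simp [halfGraph]

@[simp] theorem halfGraph_inr_inl {n : ℕ} (i j : Fin n) :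
    (halfGraph n).Adj (Sum.inr j) (Sum.inl i) ↔ i ≤ j := by
  simp [halfGraph]

@[simp] theorem halfGraph_inl_inl {n : ℕ} (i j : Fin n) :
    ¬ (halfGraph n).Adj (Sum.inl i) (Sum.inl j) := by
  simp [halfGraph]

@[simp] theorem halfGraph_inr_inr {n : ℕ} (i j : Fin n) :
    ¬ (halfGraph n).Adj (Sum.inr i) (Sum.inr j) := by
  simp [halfGraph]

/-- The half graph has no nontrivial module. -/
theorem halfGraph_prime {n : ℕ} (M : Set (Fin n ⊕ Fin n))
    (hM : ∀ x ∈ M, ∀ y ∈ M, ∀ z, z ∉ M → ((halfGraph n).Adj z x ↔ (halfGraph n).Adj z y))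
    (x y : Fin n ⊕ Fin n) (hx : x ∈ M) (hy : y ∈ M) (hxy : x ≠ y) : M = Set.univ := by
  -- a module containing both an `inl` and an `inr` is everything
  have key : ∀ i j : Fin n, Sum.inl i ∈ M → Sum.inr j ∈ M → M = Set.univ := by
    intro i j hi hj
    have hl : ∀ i' j' : Fin n, Sum.inl i' ∈ M → Sum.inr j' ∈ M → ∀ l : Fin n, l ≤ j' →
        Sum.inl l ∈ M := by
      intro i' j' hi' hj' l hl
      by_contra hcon
      have := hM _ hi' _ hj' _ hcon
      simp [hl] at this
    have hr : ∀ i' j' : Fin n, Sum.inl i' ∈ M → Sum.inr j' ∈ M → ∀ l : Fin n, i' ≤ l →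
        Sum.inr l ∈ M := by
      intro i' j' hi' hj' l hl
      by_contra hcon
      have := hM _ hi' _ hj' _ hcon
      simp [hl] at this
    have hn : 0 < n := i.pos
    let a0 : Fin n := ⟨0, hn⟩
    let b0 : Fin n := ⟨n - 1, by omega⟩
    have ha0 : Sum.inl a0 ∈ M := hl i j hi hj a0 (by simp [a0, Fin.le_def])
    have hb0 : Sum.inr b0 ∈ M := hr i j hi hj b0 (by simp [b0, Fin.le_def]; omega)
    ext z
    simp only [Set.mem_univ, iff_true]
    rcases z with z | z
    · exact hl a0 b0 ha0 hb0 z (by simp [b0, Fin.le_def]; omega)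
    · exact hr a0 b0 ha0 hb0 z (by simp [a0, Fin.le_def])
  -- two different `inl`s
  have key2 : ∀ i j : Fin n, Sum.inl i ∈ M → Sum.inl j ∈ M → i < j → M = Set.univ := by
    intro i j hi hj hij
    apply key i i hi
    by_contra hcon
    have := hM _ hi _ hj _ hcon
    simp at this
    exact absurd this (not_le.2 hij)
  have key3 : ∀ i j : Fin n, Sum.inr i ∈ M → Sum.inr j ∈ M → i < j → M = Set.univ := by
    intro i j hi hj hij
    apply key j j _ hj
    by_contra hcon
    have := hM _ hi _ hj _ hcon
    simp at this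
    exact absurd this (not_le.2 hij)
  rcases x with x | x <;> rcases y with y | y
  · have hne : x ≠ y := fun h => hxy (by rw [h])
    rcases lt_or_gt_of_ne hne with h | h
    · exact key2 x y hx hy h
    · exact key2 y x hy hx h
  · exact key x y hx hy
  · exact key y x hy hx
  · have hne : x ≠ y := fun h => hxy (by rw [h])
    rcases lt_or_gt_of_ne hne with h | h
    · exact key3 x y hx hy h
    · exact key3 y x hy hx h

theorem halfGraph_connected (n : ℕ) : (halfGraph (n + 1)).Connected := by
  have h0 : ∀ x : Fin (n + 1) ⊕ Fin (n + 1),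
      (halfGraph (n + 1)).Reachable (Sum.inl 0) x := by
    intro x
    rcases x with x | x
    · have h1 : (halfGraph (n + 1)).Adj (Sum.inl 0) (Sum.inr (Fin.last n)) := by
        simp
      have h2 : (halfGraph (n + 1)).Adj (Sum.inr (Fin.last n)) (Sum.inl x) := by
        simp [Fin.le_last]
      exact h1.reachable.trans h2.reachable
    · have h1 : (halfGraph (n + 1)).Adj (Sum.inl 0) (Sum.inr x) := by
        simp
      exact h1.reachable
  have : Nonempty (Fin (n + 1) ⊕ Fin (n + 1)) := ⟨Sum.inl 0⟩
  exact ⟨fun x y => (h0 x).symm.trans (h0 y)⟩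

theorem halfGraph_compl_connected (n : ℕ) : (halfGraph (n + 2))ᶜ.Connected := by
  have hll : ∀ x y : Fin (n + 2), (halfGraph (n + 2))ᶜ.Reachable (Sum.inl x) (Sum.inl y) := by
    intro x y
    by_cases hxy : x = y
    · rw [hxy]
    · apply Adj.reachable
      simp [hxy]
  have hrr : ∀ x y : Fin (n + 2), (halfGraph (n + 2))ᶜ.Reachable (Sum.inr x) (Sum.inr y) := by
    intro x y
    by_cases hxy : x = y
    · rw [hxy]
    · apply Adj.reachable
      simp [hxy]
  have hlr : (halfGraph (n + 2))ᶜ.Reachable (Sum.inl 1) (Sum.inr 0) := by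
    apply Adj.reachable
    simp
  have h0 : ∀ x : Fin (n + 2) ⊕ Fin (n + 2),
      (halfGraph (n + 2))ᶜ.Reachable (Sum.inl 1) x := by
    intro x
    rcases x with x | x
    · exact hll 1 x
    · exact hlr.trans (hrr 0 x)
  have : Nonempty (Fin (n + 2) ⊕ Fin (n + 2)) := ⟨Sum.inl 1⟩
  exact ⟨fun x y => (h0 x).symm.trans (h0 y)⟩

/-! ### Lexicographic powers -/

/-- The lexicographic product `F[Y]`: every vertex of `F` is replaced by a copy of `Y`. -/
def lexProd {W : Type v} {T : Type w} (F : SimpleGraph W) (Y : SimpleGraph T) :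
    SimpleGraph (W × T) where
  Adj x y := F.Adj x.1 y.1 ∨ (x.1 = y.1 ∧ Y.Adj x.2 y.2)
  symm := ⟨by
    rintro x y (h | ⟨h1, h2⟩)
    · exact Or.inl h.symm
    · exact Or.inr ⟨h1.symm, h2.symm⟩⟩
  loopless := ⟨by
    rintro x (h | ⟨_, h⟩)
    · exact F.irrefl h
    · exact Y.irrefl h⟩

theorem lexProd_adj {W : Type v} {T : Type w} (F : SimpleGraph W) (Y : SimpleGraph T)
    (x y : W × T) : (lexProd F Y).Adj x y ↔ F.Adj x.1 y.1 ∨ (x.1 = y.1 ∧ Y.Adj x.2 y.2) :=
  Iff.rfl

/-- If neither `F` nor `Y` contains the half graph, then neither does `F[Y]`. -/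
theorem no_half_lexProd {W : Type v} {T : Type w} [Finite W] (F : SimpleGraph W)
    (Y : SimpleGraph T) (n : ℕ) (hn : Nat.card W < n) (hY : IsEmpty (halfGraph n ↪g Y)) :
    IsEmpty (halfGraph n ↪g lexProd F Y) := by
  refine ⟨fun f => ?_⟩
  by_cases hinj : Function.Injective (fun x => (f x).1)
  · have h1 := Nat.card_le_card_of_injective _ hinj
    simp at h1
    omega
  · simp only [Function.Injective, not_forall] at hinj
    obtain ⟨x, y, hxy, hne⟩ := hinj
    have hM := halfGraph_prime {z | (f z).1 = (f x).1} (by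
      intro a ha b hb z hz
      simp only [Set.mem_ofPred_eq] at ha hb hz
      have h1 : (lexProd F Y).Adj (f z) (f a) ↔ (halfGraph n).Adj z a := f.map_rel_iff
      have h2 : (lexProd F Y).Adj (f z) (f b) ↔ (halfGraph n).Adj z b := f.map_rel_iff
      rw [← h1, ← h2, lexProd_adj, lexProd_adj, ha, hb]
      simp [hz]) x y rfl hxy.symm hne
    have hall : ∀ z, (f z).1 = (f x).1 := by
      intro z
      have : z ∈ {z | (f z).1 = (f x).1} := by rw [hM]; trivial
      exact this
    apply hY.false
    refine mkEmb (fun z => (f z).2) ?_ ?_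
    · intro a b hab
      apply f.injective
      exact Prod.ext ((hall a).trans (hall b).symm) hab
    · intro a b
      have h1 : (lexProd F Y).Adj (f a) (f b) ↔ (halfGraph n).Adj a b := f.map_rel_iff
      rw [← h1, lexProd_adj, hall a, hall b]
      simp

/-- If every `k`-colouring of `Y` has a monochromatic copy of `F`, then every `(k+1)`-colouring of
`F[Y]` has a monochromatic copy of `F`. -/
theorem not_col_lexProd {W : Type v} {T : Type w} (F : SimpleGraph W) (Y : SimpleGraph T) (k : ℕ)
    (hY : ¬ Col Y F k) : ¬ Col (lexProd F Y) F (k + 1) := by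
  rintro ⟨c, hc⟩
  by_cases hall : ∀ a : W, ∃ t : T, c (a, t) = Fin.last k
  · choose g hg using hall
    have hinj : Function.Injective (fun a : W => (a, g a)) := by
      intro a b hab
      exact congrArg Prod.fst hab
    obtain ⟨a, b, hab⟩ := hc (mkEmb (fun a : W => (a, g a)) hinj (by
      intro a b
      rw [lexProd_adj]
      constructor
      · rintro (h | ⟨h1, h2⟩)
        · exact h
        · simp only at h1
          subst h1
          exact absurd h2 (Y.irrefl)
      · exact Or.inl))
    apply hab
    rw [mkEmb_apply, mkEmb_apply, hg a, hg b]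
  · push Not at hall
    obtain ⟨a, ha⟩ := hall
    apply hY
    refine ⟨fun t => (c (a, t)).castPred (ha t), fun f => ?_⟩
    have hinj : Function.Injective (fun b : W => (a, f b)) := by
      intro x y hxy
      exact f.injective (congrArg Prod.snd hxy)
    obtain ⟨x, y, hxy⟩ := hc (mkEmb (fun b : W => (a, f b)) hinj (by
      intro x y
      have h1 : Y.Adj (f x) (f y) ↔ F.Adj x y := f.map_rel_iff
      rw [lexProd_adj]
      simp [h1]))
    refine ⟨x, y, fun h => hxy ?_⟩
    have := congrArg Fin.castSucc h
    simpa using this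

/-- For each `k` there is a finite graph without induced copy of the half graph such that each
`k`-colouring has a monochromatic copy of `F`. -/
theorem exists_first {W : Type v} [Finite W] [Nonempty W] (F : SimpleGraph W) (n : ℕ)
    (hn : Nat.card W < n) (k : ℕ) :
    ∃ (T : Type v) (_ : Finite T) (Y : SimpleGraph T), IsEmpty (halfGraph n ↪g Y) ∧
      ¬ Col Y F k := by
  induction k with
  | zero =>
    refine ⟨PUnit, inferInstance, ⊥, ⟨fun f => ?_⟩, ?_⟩
    · have hn0 : 0 < n := by omega
      have h1 : (Sum.inl (⟨0, hn0⟩ : Fin n) : Fin n ⊕ Fin n) = Sum.inr ⟨0, hn0⟩ :=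
        f.injective (Subsingleton.elim _ _)
      simp at h1
    · rintro ⟨c, _⟩
      exact (c PUnit.unit).elim0
  | succ k ih =>
    obtain ⟨T, hT, Y, hY1, hY2⟩ := ih
    exact ⟨W × T, inferInstance, lexProd F Y, no_half_lexProd F Y n hn hY1,
      not_col_lexProd F Y k hY2⟩

/-! ### The layered graph -/

/-- The layered graph on `Fin k × Fin N`: for `i < j`, `(i, u)` and `(j, v)` are adjacent iff
`u ≤ v`; each layer is independent. -/
def layered (k N : ℕ) : SimpleGraph (Fin k × Fin N) where
  Adj x y := (x.1 < y.1 ∧ x.2 ≤ y.2) ∨ (y.1 < x.1 ∧ y.2 ≤ x.2)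
  symm := ⟨fun _ _ h => h.symm⟩
  loopless := ⟨by
    rintro x (⟨h, _⟩ | ⟨h, _⟩)
    · exact lt_irrefl _ h
    · exact lt_irrefl _ h⟩

theorem layered_col {W : Type v} (F : SimpleGraph W) (hF : F ≠ ⊥) (k N : ℕ) :
    Col (layered k N) F k := by
  refine ⟨Prod.fst, fun f => ?_⟩
  have : ∃ a b, F.Adj a b := by
    by_contra hcon
    push Not at hcon
    apply hF
    ext a b
    simp [hcon a b]
  obtain ⟨a, b, hab⟩ := this
  refine ⟨a, b, fun h => ?_⟩
  have h1 : (layered k N).Adj (f a) (f b) := f.map_rel_iff.2 hab
  rcases h1 with ⟨h1, _⟩ | ⟨h1, _⟩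
  · exact absurd h (ne_of_lt h1)
  · exact absurd h.symm (ne_of_lt h1)

theorem layered_not_col (n k N : ℕ) (hN : Fintype.card (Fin (k + 1) → Fin k) * n < N) :
    ¬ Col (layered (k + 1) N) (halfGraph n) k := by
  rintro ⟨c, hc⟩
  -- colour vectors
  let g : Fin N → (Fin (k + 1) → Fin k) := fun u i => c (i, u)
  obtain ⟨y, hy⟩ := Fintype.exists_lt_card_fiber_of_mul_lt_card (f := g) (n := n) (by
    simpa only [Fintype.card_fin] using hN)
  -- two layers with the same colour
  obtain ⟨i, j, hij, hyij⟩ : ∃ i j : Fin (k + 1), i < j ∧ y i = y j := by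
    have : ¬ Function.Injective y := by
      intro hinj
      have := Fintype.card_le_of_injective y hinj
      simp at this
    simp only [Function.Injective, not_forall] at this
    obtain ⟨i, j, h1, h2⟩ := this
    rcases lt_or_gt_of_ne h2 with h | h
    · exact ⟨i, j, h, h1⟩
    · exact ⟨j, i, h, h1.symm⟩
  -- an increasing enumeration of `n` elements of the fibre
  let s : Finset (Fin N) := Finset.univ.filter (fun u => g u = y)
  have hs : n ≤ s.card := le_of_lt hy
  let o : Fin n → Fin N := fun a => s.orderEmbOfFin rfl (Fin.castLE hs a)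
  have ho : ∀ a b, o a ≤ o b ↔ a ≤ b := by
    intro a b
    simp [o]
  have hos : ∀ a, g (o a) = y := by
    intro a
    have : o a ∈ s := Finset.orderEmbOfFin_mem _ _ _
    simpa [s] using this
  have hoinj : ∀ a b, o a = o b → a = b := by
    intro a b hab
    exact le_antisymm ((ho a b).1 hab.le) ((ho b a).1 hab.ge)
  let q : Fin n ⊕ Fin n → Fin (k + 1) × Fin N := Sum.elim (fun a => (i, o a)) (fun a => (j, o a))
  have hql : ∀ a, q (Sum.inl a) = (i, o a) := fun a => rfl
  have hqr : ∀ a, q (Sum.inr a) = (j, o a) := fun a => rfl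
  have hinj : Function.Injective q := by
    rintro (a | a) (b | b) hab
    · rw [hql, hql, Prod.mk.injEq] at hab
      rw [hoinj _ _ hab.2]
    · rw [hql, hqr, Prod.mk.injEq] at hab
      exact absurd hab.1 (ne_of_lt hij)
    · rw [hqr, hql, Prod.mk.injEq] at hab
      exact absurd hab.1.symm (ne_of_lt hij)
    · rw [hqr, hqr, Prod.mk.injEq] at hab
      rw [hoinj _ _ hab.2]
  obtain ⟨a, b, hab⟩ := hc (mkEmb q hinj (by
      rintro (a | a) (b | b)
      · rw [hql, hql]; simp [layered]
      · rw [hql, hqr]; simp [layered, hij, ho, not_lt.2 hij.le]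
      · rw [hqr, hql]; simp [layered, hij, ho, not_lt.2 hij.le]
      · rw [hqr, hqr]; simp [layered]))
  apply hab
  have hcol : ∀ x, c (q x) = y i := by
    rintro (x | x)
    · exact congrFun (hos x) i
    · rw [hyij]
      exact congrFun (hos x) j
  rw [mkEmb_apply, mkEmb_apply, hcol, hcol]

/-! ### Exact values by passing to induced subgraphs -/

/-- If `X` is not `k`-colourable then some induced subgraph is `(k+1)`-colourable but not
`k`-colourable. -/
theorem exists_exact {V : Type u} {W : Type v} [Finite V] [Nontrivial W] (X : SimpleGraph V)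
    (F : SimpleGraph W) (k : ℕ) (h : ¬ Col X F k) :
    ∃ s : Set V, ¬ Col (X.induce s) F k ∧ Col (X.induce s) F (k + 1) := by
  classical
  have := Fintype.ofFinite V
  have key : ∀ s : Finset V, ¬ Col (X.induce (s : Set V)) F k →
      ∃ s : Set V, ¬ Col (X.induce s) F k ∧ Col (X.induce s) F (k + 1) := by
    intro s
    induction s using Finset.induction_on with
    | empty =>
      intro hs
      exfalso
      apply hs
      refine ⟨fun x => absurd x.2 (by simp), fun f => ?_⟩
      obtain ⟨w⟩ : Nonempty W := inferInstance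
      exact absurd (f w).2 (by simp)
    | insert v s hv ih =>
      intro hs
      by_cases hs0 : Col (X.induce (s : Set V)) F k
      · refine ⟨_, hs, ?_⟩
        obtain ⟨c, hc⟩ := hs0
        refine ⟨fun x => if h : x.1 ∈ (s : Set V) then (c ⟨x.1, h⟩).castSucc else Fin.last k,
          fun f => ?_⟩
        by_contra hcon
        push Not at hcon
        by_cases hall : ∃ a, (f a).1 ∉ (s : Set V)
        · obtain ⟨a, ha⟩ := hall
          -- every image has the last colour, hence equals `v`
          have hlast : ∀ b, (f b).1 = v := by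
            intro b
            have h1 := hcon a b
            rw [dif_neg ha] at h1
            by_cases hb : (f b).1 ∈ (s : Set V)
            · rw [dif_pos hb] at h1
              exact absurd h1.symm (Fin.castSucc_ne_last _)
            · have h2 := (f b).2
              simp only [Finset.coe_insert, Set.mem_insert_iff] at h2
              rcases h2 with h2 | h2
              · exact h2
              · exact absurd h2 hb
          obtain ⟨b1, b2, hb⟩ := exists_pair_ne W
          apply hb
          apply f.injective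
          exact Subtype.ext ((hlast b1).trans (hlast b2).symm)
        · push Not at hall
          have hinj : Function.Injective
              (fun a : W => (⟨(f a).1, hall a⟩ : (s : Set V))) := by
            intro a b hab
            apply f.injective
            exact Subtype.ext (by simpa using hab)
          obtain ⟨a, b, hab⟩ := hc (mkEmb
            (fun a : W => (⟨(f a).1, hall a⟩ : (s : Set V))) hinj (by
            intro a b
            exact f.map_rel_iff))
          apply hab
          have h1 := hcon a b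
          rw [dif_pos (hall a), dif_pos (hall b)] at h1
          exact Fin.castSucc_injective _ h1
      · exact ih hs0
  apply key Finset.univ
  intro hcol
  apply h
  refine hcol.of_embedding (mkEmb (fun x : V => ⟨x, by simp⟩) ?_ ?_)
  · intro a b hab
    exact congrArg Subtype.val hab
  · intro a b
    rfl

/-- A witness on an arbitrary finite vertex set gives relatedness. -/
theorem relatedAt_of_col {V : Type u} {W : Type v} [Nonempty V] [Nonempty W] {T : Type w}
    [Finite T] {F : SimpleGraph V} {G : SimpleGraph W} {k : ℕ} (X : SimpleGraph T)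
    (h1 : Col X F (k + 1)) (h2 : ¬ Col X F k) (h3 : Col X G (k + 1)) (h4 : ¬ Col X G k) :
    RelatedAt (k + 1) F G := by
  obtain ⟨m, ⟨e⟩⟩ := Finite.exists_equiv_fin T
  let X' : SimpleGraph (Fin m) := X.comap e.symm
  have e1 : X' ↪g X := mkEmb e.symm e.symm.injective (fun a b => Iff.rfl)
  have e2 : X ↪g X' := mkEmb e e.injective (by
    intro a b
    simp [X'])
  exact ⟨m, X', freeChromaticNumber_eq (h1.of_embedding e1) (fun h => h2 (h.of_embedding e2)),
    freeChromaticNumber_eq (h3.of_embedding e1) (fun h => h4 (h.of_embedding e2))⟩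

theorem RelatedAt.symm {V : Type u} {W : Type v} {F : SimpleGraph V} {G : SimpleGraph W} {n : ℕ}
    (h : RelatedAt n F G) : RelatedAt n G F := by
  obtain ⟨m, X, h1, h2⟩ := h
  exact ⟨m, X, h2, h1⟩

theorem Related.symm {V : Type u} {W : Type v} {F : SimpleGraph V} {G : SimpleGraph W}
    (h : Related F G) : Related G F := fun n hn => (h n hn).symm

theorem freeChromaticNumber_compl {V : Type u} {W : Type v} [Nonempty W] (X : SimpleGraph V)
    (F : SimpleGraph W) : freeChromaticNumber Xᶜ Fᶜ = freeChromaticNumber X F := by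
  unfold freeChromaticNumber
  simp only [freeColorable_iff, col_compl]

theorem Related.compl {V : Type u} {W : Type v} [Nonempty V] [Nonempty W] {F : SimpleGraph V}
    {G : SimpleGraph W} (h : Related F G) : Related Fᶜ Gᶜ := by
  intro n hn
  obtain ⟨m, X, h1, h2⟩ := h n hn
  exact ⟨m, Xᶜ, by rw [freeChromaticNumber_compl, h1], by rw [freeChromaticNumber_compl, h2]⟩

/-- Every finite graph with an edge is related to every larger half graph. -/
theorem related_halfGraph {W : Type v} [Finite W] [Nontrivial W] (F : SimpleGraph W)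
    (hF : F ≠ ⊥) (n : ℕ) (hn : Nat.card W < n + 2) : Related F (halfGraph (n + 2)) := by
  intro N hN
  obtain ⟨k, rfl⟩ : ∃ k, N = k + 1 := ⟨N - 1, by omega⟩
  have hne : Nonempty (Fin (n + 2) ⊕ Fin (n + 2)) := ⟨Sum.inl 0⟩
  -- the first witness
  obtain ⟨T, hT, Y, hY1, hY2⟩ := exists_first F (n + 2) hn k
  obtain ⟨s, hs1, hs2⟩ := exists_exact Y F k hY2
  have hs3 : Col (Y.induce s) (halfGraph (n + 2)) (k + 1) := by
    refine ⟨fun _ => 0, fun f => ?_⟩
    exact (hY1.false ((Embedding.induce s).comp f)).elim
  -- the second witness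
  have hH : halfGraph (n + 2) ≠ ⊥ := by
    intro h
    have h1 : (halfGraph (n + 2)).Adj (Sum.inl 0) (Sum.inr 0) := by simp
    rw [h] at h1
    exact h1
  let N' := Fintype.card (Fin (k + 1) → Fin k) * (n + 2) + 1
  have hL1 : Col (layered (k + 1) N') F (k + 1) := layered_col F hF (k + 1) N'
  have hL2 : Col (layered (k + 1) N') (halfGraph (n + 2)) (k + 1) :=
    layered_col (halfGraph (n + 2)) hH (k + 1) N'
  have hL3 : ¬ Col (layered (k + 1) N') (halfGraph (n + 2)) k :=
    layered_not_col (n + 2) k N' (by simp [N'])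
  rcases F.connected_or_connected_compl with hc | hc
  · refine relatedAt_of_col (Y.induce s ⊕g layered (k + 1) N') (Col.sum hc hs2 hL1) ?_
      (Col.sum (halfGraph_connected (n + 1)) hs3 hL2) ?_
    · exact fun h => hs1 (h.of_embedding Embedding.sumInl)
    · exact fun h => hL3 (h.of_embedding Embedding.sumInr)
  · refine relatedAt_of_col ((Y.induce s)ᶜ ⊕g (layered (k + 1) N')ᶜ)ᶜ ?_ ?_ ?_ ?_
    · rw [← col_compl, compl_compl]
      exact Col.sum hc (col_compl.2 hs2) (col_compl.2 hL1)
    · rw [← col_compl, compl_compl]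
      exact fun h => hs1 (col_compl.1 (h.of_embedding Embedding.sumInl))
    · rw [← col_compl, compl_compl]
      exact Col.sum (halfGraph_compl_connected n) (col_compl.2 hs3) (col_compl.2 hL2)
    · rw [← col_compl, compl_compl]
      exact fun h => hL3 (col_compl.1 (h.of_embedding Embedding.sumInr))

/-! ### Complete graphs and edgeless graphs -/

/-- Disjoint union of cliques: cliques are indexed by `A`, the vertices of a clique by `B`. -/
def cliques (A B : Type) : SimpleGraph (A × B) where
  Adj x y := x.1 = y.1 ∧ x.2 ≠ y.2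
  symm := ⟨fun _ _ h => ⟨h.1.symm, h.2.symm⟩⟩
  loopless := ⟨fun _ h => h.2 rfl⟩

theorem related_top_bot {V : Type u} {W : Type v} [Finite V] [Finite W] [Nontrivial V]
    [Nontrivial W] : Related (⊤ : SimpleGraph V) (⊥ : SimpleGraph W) := by
  intro N hN
  obtain ⟨k, rfl⟩ : ∃ k, N = k + 1 := ⟨N - 1, by omega⟩
  have := Fintype.ofFinite V
  have := Fintype.ofFinite W
  obtain ⟨m, hm⟩ : ∃ m, Fintype.card V = m + 2 := by
    have := Fintype.one_lt_card (α := V)
    exact ⟨Fintype.card V - 2, by omega⟩
  obtain ⟨n, hn⟩ : ∃ n, Fintype.card W = n + 2 := by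
    have := Fintype.one_lt_card (α := W)
    exact ⟨Fintype.card W - 2, by omega⟩
  refine relatedAt_of_col (cliques (Fin (k + 1) × Fin (n + 1)) (Fin (k + 1) × Fin (m + 1)))
    ?_ ?_ ?_ ?_
  · refine ⟨fun x => x.2.1, fun f => ?_⟩
    by_contra hcon
    push Not at hcon
    have hinj : Function.Injective (fun a : V => (f a).2.2) := by
      intro a b hab
      by_contra hne
      have h1 : (cliques (Fin (k + 1) × Fin (n + 1)) (Fin (k + 1) × Fin (m + 1))).Adj
          (f a) (f b) := f.map_rel_iff.2 hne
      exact h1.2 (Prod.ext (hcon a b) hab)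
    have := Fintype.card_le_of_injective _ hinj
    simp [hm] at this
  · rintro ⟨c, hc⟩
    obtain ⟨y, hy⟩ := Fintype.exists_lt_card_fiber_of_mul_lt_card
      (f := fun b : Fin (k + 1) × Fin (m + 1) => c ((0, 0), b)) (n := m + 1) (by
        simp only [Fintype.card_fin, Fintype.card_prod]
        nlinarith)
    obtain ⟨g⟩ : Nonempty (V ↪ {x // x ∈ Finset.univ.filter
        (fun b : Fin (k + 1) × Fin (m + 1) => c ((0, 0), b) = y)}) := by
      apply Function.Embedding.nonempty_of_card_le
      rw [hm, Fintype.card_coe]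
      omega
    have hinj : Function.Injective (fun a : V => (((0, 0), (g a).1) :
        (Fin (k + 1) × Fin (n + 1)) × (Fin (k + 1) × Fin (m + 1)))) := by
      intro a b hab
      apply g.injective
      exact Subtype.ext (congrArg Prod.snd hab)
    obtain ⟨a, b, hab⟩ := hc (mkEmb _ hinj (by
      intro a b
      constructor
      · rintro ⟨_, h⟩
        intro hab
        apply h
        rw [hab]
      · intro h
        refine ⟨rfl, fun hab => h ?_⟩
        apply g.injective
        exact Subtype.ext hab))
    apply hab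
    have h1 := (g a).2
    have h2 := (g b).2
    simp only [Finset.mem_filter, Finset.mem_univ, true_and] at h1 h2
    rw [mkEmb_apply, mkEmb_apply, h1, h2]
  · refine ⟨fun x => x.1.1, fun f => ?_⟩
    by_contra hcon
    push Not at hcon
    have hinj : Function.Injective (fun a : W => (f a).1.2) := by
      intro a b hab
      by_contra hne
      have h1 : ¬ (cliques (Fin (k + 1) × Fin (n + 1)) (Fin (k + 1) × Fin (m + 1))).Adj
          (f a) (f b) := fun h => (f.map_rel_iff.1 h)
      apply h1
      refine ⟨Prod.ext (hcon a b) hab, fun h2 => hne ?_⟩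
      apply f.injective
      exact Prod.ext (Prod.ext (hcon a b) hab) h2
    have := Fintype.card_le_of_injective _ hinj
    simp [hn] at this
  · rintro ⟨c, hc⟩
    obtain ⟨y, hy⟩ := Fintype.exists_lt_card_fiber_of_mul_lt_card
      (f := fun a : Fin (k + 1) × Fin (n + 1) => c (a, (0, 0))) (n := n + 1) (by
        simp only [Fintype.card_fin, Fintype.card_prod]
        nlinarith)
    obtain ⟨g⟩ : Nonempty (W ↪ {x // x ∈ Finset.univ.filter
        (fun a : Fin (k + 1) × Fin (n + 1) => c (a, (0, 0)) = y)}) := by
      apply Function.Embedding.nonempty_of_card_le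
      rw [hn, Fintype.card_coe]
      omega
    have hinj : Function.Injective (fun a : W => (((g a).1, (0, 0)) :
        (Fin (k + 1) × Fin (n + 1)) × (Fin (k + 1) × Fin (m + 1)))) := by
      intro a b hab
      apply g.injective
      exact Subtype.ext (congrArg Prod.fst hab)
    obtain ⟨a, b, hab⟩ := hc (mkEmb _ hinj (by
      intro a b
      constructor
      · rintro ⟨_, h⟩
        exact absurd rfl h
      · intro h
        exact h.elim))
    apply hab
    have h1 := (g a).2
    have h2 := (g b).2
    simp only [Finset.mem_filter, Finset.mem_univ, true_and] at h1 h2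
    rw [mkEmb_apply, mkEmb_apply, h1, h2]

/-! ### Chains -/

theorem freeChromaticNumber_congr {V : Type u} {W : Type v} {W' : Type w} {F : SimpleGraph W}
    {F' : SimpleGraph W'} (e : F ≃g F') (X : SimpleGraph V) :
    freeChromaticNumber X F = freeChromaticNumber X F' := by
  have h : ∀ k, FreeColorable X F k ↔ FreeColorable X F' k := by
    intro k
    refine exists_congr fun c => forall_congr' fun i => not_congr ?_
    exact ⟨fun ⟨f⟩ => ⟨f.comp e.symm.toEmbedding⟩, fun ⟨f⟩ => ⟨f.comp e.toEmbedding⟩⟩
  unfold freeChromaticNumber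
  simp only [h]

theorem Related.congr {V : Type u} {V' : Type*} {W : Type v} {W' : Type w} {F : SimpleGraph V}
    {F' : SimpleGraph V'} {G : SimpleGraph W} {G' : SimpleGraph W'} (h : Related F G)
    (e : F ≃g F') (e' : G ≃g G') : Related F' G' := by
  intro n hn
  obtain ⟨m, X, h1, h2⟩ := h n hn
  exact ⟨m, X, by rw [← freeChromaticNumber_congr e, h1], by
    rw [← freeChromaticNumber_congr e', h2]⟩

theorem exists_fin_copy {V : Type u} [Finite V] [Nontrivial V] (F : SimpleGraph V) :
    ∃ (m : ℕ) (F' : SimpleGraph (Fin m)), 2 ≤ m ∧ Nonempty (F ≃g F') := by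
  obtain ⟨m, ⟨e⟩⟩ := Finite.exists_equiv_fin V
  refine ⟨m, F.comap e.symm, ?_, ⟨(Iso.comap e.symm F).symm⟩⟩
  have h1 : 1 < Nat.card V := Finite.one_lt_card
  rw [Nat.card_congr e, Nat.card_fin] at h1
  exact h1

theorem hasChain_one {V : Type u} {W : Type v} [Finite V] [Finite W] [Nontrivial V]
    [Nontrivial W] {F : SimpleGraph V} {G : SimpleGraph W} (h : Related F G) :
    HasChain F G 1 := by
  obtain ⟨a, F', ha, ⟨eF⟩⟩ := exists_fin_copy F
  obtain ⟨b, G', hb, ⟨eG⟩⟩ := exists_fin_copy G
  let S : Fin 2 → (Σ m, SimpleGraph (Fin m)) := ![⟨a, F'⟩, ⟨b, G'⟩]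
  refine ⟨fun i => (S i).1, fun i => (S i).2, ?_, ⟨eF⟩, ⟨eG.symm⟩, ?_⟩
  · intro i
    fin_cases i
    · exact ha
    · exact hb
  · intro i
    fin_cases i
    exact h.congr eF eG

theorem hasChain_two {V : Type u} {W : Type v} {U : Type w} [Finite V] [Finite W] [Finite U]
    [Nontrivial V] [Nontrivial W] [Nontrivial U] {F : SimpleGraph V} {G : SimpleGraph W}
    {H : SimpleGraph U} (h1 : Related F H) (h2 : Related H G) : HasChain F G 2 := by
  obtain ⟨a, F', ha, ⟨eF⟩⟩ := exists_fin_copy F
  obtain ⟨b, G', hb, ⟨eG⟩⟩ := exists_fin_copy G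
  obtain ⟨c, H', hc, ⟨eH⟩⟩ := exists_fin_copy H
  let S : Fin 3 → (Σ m, SimpleGraph (Fin m)) := ![⟨a, F'⟩, ⟨c, H'⟩, ⟨b, G'⟩]
  refine ⟨fun i => (S i).1, fun i => (S i).2, ?_, ⟨eF⟩, ⟨eG.symm⟩, ?_⟩
  · intro i
    fin_cases i
    · exact ha
    · exact hc
    · exact hb
  · intro i
    fin_cases i
    · exact h1.congr eF eH
    · exact h2.congr eH eG

theorem chromaticDistance_le {V : Type u} {W : Type v} {F : SimpleGraph V} {G : SimpleGraph W}
    {k : ℕ} (h : HasChain F G k) : chromaticDistance F G ≤ k :=
  iInf₂_le k h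

/-- **Any two finite graphs with at least two vertices are at chromatic distance at most two.** -/
theorem result {V : Type u} {W : Type v} [Finite V] [Finite W] [Nontrivial V] [Nontrivial W]
    (F : SimpleGraph V) (G : SimpleGraph W) : chromaticDistance F G ≤ 2 := by
  have hnt : ∀ n : ℕ, Nontrivial (Fin (n + 2) ⊕ Fin (n + 2)) := fun n =>
    ⟨Sum.inl 0, Sum.inr 0, by simp⟩
  by_cases h1 : F = ⊥
  · by_cases h2 : G = ⊤
    · subst h1 h2
      refine (chromaticDistance_le (hasChain_one related_top_bot.symm)).trans ?_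
      norm_num
    · -- both `F` and `G` are not complete
      have hF : Fᶜ ≠ ⊥ := by
        rw [h1]
        simp
      have hG : Gᶜ ≠ ⊥ := by
        intro h
        exact h2 (compl_eq_bot.1 h)
      have r1 := (related_halfGraph Fᶜ hF (Nat.card V + Nat.card W) (by omega)).compl
      have r2 := (related_halfGraph Gᶜ hG (Nat.card V + Nat.card W) (by omega)).compl
      rw [compl_compl] at r1 r2
      exact_mod_cast chromaticDistance_le (hasChain_two r1 r2.symm)
  · by_cases h2 : G = ⊥
    · by_cases h3 : F = ⊤
      · subst h2 h3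
        refine (chromaticDistance_le (hasChain_one related_top_bot)).trans ?_
        norm_num
      · have hF : Fᶜ ≠ ⊥ := by
          intro h
          exact h3 (compl_eq_bot.1 h)
        have hG : Gᶜ ≠ ⊥ := by
          rw [h2]
          simp
        have r1 := (related_halfGraph Fᶜ hF (Nat.card V + Nat.card W) (by omega)).compl
        have r2 := (related_halfGraph Gᶜ hG (Nat.card V + Nat.card W) (by omega)).compl
        rw [compl_compl] at r1 r2
        exact_mod_cast chromaticDistance_le (hasChain_two r1 r2.symm)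
    · have r1 := related_halfGraph F h1 (Nat.card V + Nat.card W) (by omega)
      have r2 := related_halfGraph G h2 (Nat.card V + Nat.card W) (by omega)
      exact_mod_cast chromaticDistance_le (hasChain_two r1 r2.symm)

end Pool.Agent.Results.MP_37c966_co.DistanceAtMostTwo
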